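import Pool.Agent.Work.MP_fa619e_an.Proof

/-!
# The triple logarithm condition does not imply Pringsheim convergence (`d = 2`, `p = 2`)
-/

set_option autoImplicit false

open MeasureTheory
open Pool.Agent.Work.MP_fa619e_an

namespace Pool.Agent.Results.MP_fa619e_an.Counterexample

/-- There is a real-valued `f ∈ L²(𝕋²)` with
`ω(δ, f)_2 · (log (1/δ))^{2/2} · log log log (e^{e^e}/δ) → 0` as `δ → 0+` whose rectangular Fourier sums
diverge in the sense of Pringsheim at almost every point. -/
theorem result :
    ∃ f : Torus 2 → ℝ, MemLp f 2 (torusMeasure 2) ∧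
      ModulusCondition 2 2 (fun x => (f x : ℂ)) ∧
      ∀ᵐ x ∂(torusMeasure 2), ¬ PringsheimConverges (fun x => (f x : ℂ)) x :=
  Pool.Agent.Work.MP_fa619e_an.counterexample

end Pool.Agent.Results.MP_fa619e_an.Counterexample
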